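import Pool.Agent.Lib.MP_2184e2_an.Loc.All
import Pool.Agent.Lib.MP_2184e2_an.NoExt

/-!
Problem MP_2184e2_an: the answer to Q1.  Smooth CR mappings between real-analytic CR submanifolds
with condition (L) always extend holomorphically near every point, and to a neighbourhood of the
whole of `M₁` if `M₁` is generic; without genericity a neighbourhood of the whole of `M₁` need not
exist, even for compact `M₁` and real-analytic `f`.
-/

set_option autoImplicit false

namespace Pool.Agent.Results.MP_2184e2_an.FullAnswer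

open Pool.Agent.Lib.MP_2184e2_an

open Filter Topology
open scoped ContDiff

/-- (1) Let `M₁, M₂ ⊆ ℂⁿ` be real-analytic CR submanifolds with condition (L), of any codimensions
and CR dimensions, and `f : M₁ → M₂` a CR mapping of class `C^∞`.  Then every point `p` of `M₁` has
an open neighbourhood `U` in `ℂⁿ` such that `f` is on `M₁ ∩ U` the restriction of a holomorphic map
`F : U → ℂⁿ`, and if `M₁` is generic then `f` extends holomorphically to a neighbourhood of `M₁`.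
(2) There are compact `M₁`, `M₂` in `ℂ⁴` (real dimensions 3 and 7) with condition (L) and an
injective CR mapping `f : M₁ → M₂` of every class `C^k`, `k ≤ ω`, that does not extend
holomorphically to any neighbourhood of `M₁`. -/
theorem result :
    (∀ (n c₁ m₁ c₂ m₂ : ℕ) (M₁ M₂ : Set (Fin n → ℂ)), IsCRSubmanifold c₁ m₁ M₁ →
      IsCRSubmanifold c₂ m₂ M₂ → ConditionL M₁ → ConditionL M₂ → ∀ f : M₁ → M₂,
      IsCRMap ∞ M₁ M₂ f →
        (∀ p : M₁, ∃ U : Set (Fin n → ℂ), IsOpen U ∧ (p : Fin n → ℂ) ∈ U ∧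
          ∃ F : (Fin n → ℂ) → (Fin n → ℂ), AnalyticOnNhd ℂ F U ∧
            ∀ w : M₁, (w : Fin n → ℂ) ∈ U → F w = f w) ∧
        (c₁ + m₁ = n → ExtendsHolomorphically M₁ M₂ f)) ∧
    ∃ (M₁ M₂ : Set (Fin 4 → ℂ)) (f : M₁ → M₂),
      IsCRSubmanifold 5 1 M₁ ∧ ConditionL M₁ ∧ IsCompact M₁ ∧ M₁.Nonempty ∧
      IsCRSubmanifold 1 3 M₂ ∧ ConditionL M₂ ∧ IsCompact M₂ ∧
      Function.Injective f ∧ (∀ k : WithTop ℕ∞, IsCRMap k M₁ M₂ f) ∧
      ¬ ExtendsHolomorphically M₁ M₂ f := by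
  refine ⟨?_, M1, Sph 4, fmap, ⟨analytic_M1, fun z hz => finrank_ctangent_M1 hz⟩, conditionL_M1,
    isCompact_M1, ⟨_, mem_M1 (gam_mem 0 0)⟩, ⟨analytic_sph, fun z hz => finrank_ctangent_sph hz⟩,
    conditionL_sph, isCompact_sph 4, fmap_injective, isCRMap_fmap, not_extends⟩
  intro n c₁ m₁ c₂ m₂ M₁ M₂ h₁ h₂ hL₁ hL₂ f hf
  obtain ⟨hloc, hgen⟩ := Loc.finThm n c₁ m₁ c₂ m₂ M₁ M₂ h₁ h₂ hL₁ hL₂ f hf
  refine ⟨fun p => ?_, hgen⟩
  obtain ⟨F, hF, hFf⟩ := hloc p
  rw [nhds_subtype_eq_comap, eventually_comap] at hFf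
  obtain ⟨U, hUs, hU, hpU⟩ := eventually_nhds_iff.1 (hFf.and hF.eventually_analyticAt)
  exact ⟨U, hU, hpU, F, fun w hw => (hUs w hw).2, fun w hw => (hUs w hw).1 w rfl⟩

end Pool.Agent.Results.MP_2184e2_an.FullAnswer
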