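import Pool.Agent.Lib.MP_2184e2_an.Loc.All

/-!
Problem MP_2184e2_an: smooth CR mappings between real-analytic CR submanifolds with condition (L)
extend holomorphically near every point.
-/

set_option autoImplicit false

namespace Pool.Agent.Results.MP_2184e2_an.LocalExtension

open Pool.Agent.Lib.MP_2184e2_an

open Filter Topology
open scoped ContDiff

/-- Let `M₁, M₂ ⊆ ℂⁿ` be real-analytic CR submanifolds with condition (L), of any codimensions and
CR dimensions, and `f : M₁ → M₂` a CR mapping of class `C^∞`.  Then every point `p` of `M₁` has an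
open neighbourhood `U` in `ℂⁿ`, which can be chosen to contain the whole of `M₁` when `M₁` is
generic, such that `f` is on `M₁ ∩ U` the restriction of a holomorphic map `F : U → ℂⁿ`. -/
theorem result (n c₁ m₁ c₂ m₂ : ℕ) (M₁ M₂ : Set (Fin n → ℂ)) (h₁ : IsCRSubmanifold c₁ m₁ M₁)
    (h₂ : IsCRSubmanifold c₂ m₂ M₂) (hL₁ : ConditionL M₁) (hL₂ : ConditionL M₂) (f : M₁ → M₂)
    (hf : IsCRMap ∞ M₁ M₂ f) (p : M₁) :
    ∃ U : Set (Fin n → ℂ), IsOpen U ∧ (p : Fin n → ℂ) ∈ U ∧ (c₁ + m₁ = n → M₁ ⊆ U) ∧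
      ∃ F : (Fin n → ℂ) → (Fin n → ℂ), AnalyticOnNhd ℂ F U ∧
        ∀ w : M₁, (w : Fin n → ℂ) ∈ U → F w = f w := by
  obtain ⟨hloc, hgen⟩ := Loc.finThm n c₁ m₁ c₂ m₂ M₁ M₂ h₁ h₂ hL₁ hL₂ f hf
  by_cases hg : c₁ + m₁ = n
  · obtain ⟨U, hU, hMU, F, hF, hFf⟩ := hgen hg
    exact ⟨U, hU, hMU p.2, fun _ => hMU, F, hF, fun w _ => hFf w⟩
  · obtain ⟨F, hF, hFf⟩ := hloc p
    rw [nhds_subtype_eq_comap, eventually_comap] at hFf
    obtain ⟨U, hUs, hU, hpU⟩ := eventually_nhds_iff.1 (hFf.and hF.eventually_analyticAt)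
    exact ⟨U, hU, hpU, fun h => absurd h hg, F, fun w hw => (hUs w hw).2,
      fun w hw => (hUs w hw).1 w rfl⟩

end Pool.Agent.Results.MP_2184e2_an.LocalExtension
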