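import Pool.Agent.Lib.MP_2184e2_an.NoExt

/-!
Problem MP_2184e2_an: a real-analytic CR mapping between compact real-analytic CR submanifolds of
`ℂ⁴` satisfying condition (L) that does not extend holomorphically to any neighbourhood.
-/

set_option autoImplicit false

namespace Pool.Agent.Results.MP_2184e2_an.NoHolomorphicExtension

open Pool.Agent.Lib.MP_2184e2_an

open Filter Topology

/-- There are compact real-analytic CR submanifolds `M₁` (real dimension 3, CR dimension 1) and
`M₂` (real dimension 7, CR dimension 3) of `ℂ⁴`, both satisfying condition (L), and an injective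
CR mapping `f : M₁ → M₂` of every class `C^k`, `k ≤ ω` (in particular `C^∞` and real-analytic),
which extends holomorphically near every point of `M₁` but is not the restriction of a holomorphic
map defined on a neighbourhood of `M₁` in `ℂ⁴`. -/
theorem result :
    ∃ (M₁ M₂ : Set (Fin 4 → ℂ)) (f : M₁ → M₂),
      IsCRSubmanifold 5 1 M₁ ∧ ConditionL M₁ ∧ IsCompact M₁ ∧ M₁.Nonempty ∧
      IsCRSubmanifold 1 3 M₂ ∧ ConditionL M₂ ∧ IsCompact M₂ ∧
      Function.Injective f ∧ (∀ k : WithTop ℕ∞, IsCRMap k M₁ M₂ f) ∧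
      (∀ z : M₁, ∃ g : (Fin 4 → ℂ) → (Fin 4 → ℂ), AnalyticAt ℂ g z ∧
        ∀ᶠ w : M₁ in 𝓝 z, g w = f w) ∧
      ¬ ExtendsHolomorphically M₁ M₂ f := by
  refine ⟨M1, Sph 4, fmap, ⟨analytic_M1, fun z hz => finrank_ctangent_M1 hz⟩, conditionL_M1,
    isCompact_M1, ⟨_, mem_M1 (gam_mem 0 0)⟩, ⟨analytic_sph, fun z hz => finrank_ctangent_sph hz⟩,
    conditionL_sph, isCompact_sph 4, fmap_injective, isCRMap_fmap, fmap_local,
    not_extends⟩

end Pool.Agent.Results.MP_2184e2_an.NoHolomorphicExtension
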